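import Pool.Agent.H34.O1.Mouf

/-!
End game of case O1 (after helper32), steps (0)-(4): if `th(a,b)` fixes `b` for all `a, b` then
`Q` has the inverse property and `L_{xy} = L_x L_y th(x,y)`.
-/

set_option autoImplicit false

namespace ALoop

open Equiv

variable {Q : Type*} {G : Subgroup (Perm Q)} {L : Q → Perm Q} {J : Perm Q} {e : Q}

namespace AL0

theorem k7a' (h : AL0 G L J e) (k7 : ∀ a b, Th L J a b b = b) (a b : Q) : Th L J a b a = a := by
  have h1 := k7 (J b) (J a)
  rw [h.Th_inv, Perm.inv_eq_iff_eq] at h1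
  have h2 := h.fixJ (h.Th_mem a b) (h.Th_e a b) h1.symm
  rwa [h.JJ] at h2

theorem th_L (h : AL0 G L J e) {a b c : Q} (hc : Th L J a b c = c) :
    Th L J a b * L c = L c * Th L J a b := h.comL (h.Th_mem a b) (h.Th_e a b) hc

theorem th_R (h : AL0 G L J e) {a b c : Q} (hc : Th L J a b c = c) :
    Th L J a b * Rt L J c = Rt L J c * Th L J a b := h.comR (h.Th_mem a b) (h.Th_e a b) hc

theorem th_Jb (h : AL0 G L J e) (k7 : ∀ a b, Th L J a b b = b) (a b : Q) :
    Th L J a (J b) = (Th L J a b)⁻¹ := by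
  have h1 := h.K1 a b
  have h2 : Th L J a b * Tx L J b = Tx L J b * Th L J a b := by
    have c1 := h.th_L (k7 a b)
    have c2 := h.th_R (k7 a b)
    unfold Tx
    have c3 : Th L J a b * (Rt L J b)⁻¹ = (Rt L J b)⁻¹ * Th L J a b := by
      rw [mul_inv_eq_iff_eq_mul, mul_assoc, c2]; group
    rw [← mul_assoc, c1, mul_assoc, c3, mul_assoc]
  rw [h2] at h1
  have h3 := mul_left_cancel h1
  rw [← h3, inv_inv]

theorem th_swap (h : AL0 G L J e) (k7 : ∀ a b, Th L J a b b = b) (a b : Q) :
    Th L J b a = (Th L J a b)⁻¹ := by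
  have h1 := h.K2 a b
  have h2 : Th L J a b * Tx L J b = Tx L J b * Th L J a b := by
    have c1 := h.th_L (k7 a b)
    have c2 := h.th_R (k7 a b)
    unfold Tx
    have c3 : Th L J a b * (Rt L J b)⁻¹ = (Rt L J b)⁻¹ * Th L J a b := by
      rw [mul_inv_eq_iff_eq_mul, mul_assoc, c2]; group
    rw [← mul_assoc, c1, mul_assoc, c3, mul_assoc]
  rw [h2] at h1
  have h3 := mul_left_cancel h1
  rw [h.th_Jb k7] at h3
  rw [← h3, inv_inv]

theorem th_Ja (h : AL0 G L J e) (k7 : ∀ a b, Th L J a b b = b) (a b : Q) :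
    Th L J (J a) b = (Th L J a b)⁻¹ := by
  rw [h.th_swap k7 b (J a), h.th_Jb k7, h.th_swap k7 a b, inv_inv]

theorem LR (_h : AL0 G L J e) (a b : Q) : L a * Rt L J b = Rt L J b * L a * Th L J a b := by
  unfold Th; group

theorem rip (h : AL0 G L J e) (k7 : ∀ a b, Th L J a b b = b) (b : Q) :
    Rt L J (J b) = (Rt L J b)⁻¹ := by
  have h1 : ∀ a, L a * (Rt L J b * Rt L J (J b)) = Rt L J b * Rt L J (J b) * L a := by
    intro a
    have e1 := h.LR a b
    have e2 := h.LR a (J b)
    rw [h.th_Jb k7] at e2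
    have e3 := h.th_R (h.fixJ (h.Th_mem a b) (h.Th_e a b) (k7 a b))
    calc L a * (Rt L J b * Rt L J (J b)) = (L a * Rt L J b) * Rt L J (J b) := by group
      _ = Rt L J b * L a * (Th L J a b * Rt L J (J b)) := by rw [e1]; group
      _ = Rt L J b * (L a * Rt L J (J b)) * Th L J a b := by rw [e3]; group
      _ = _ := by rw [e2]; group
  have h2 : Rt L J b * Rt L J (J b) = 1 := by
    ext a
    have := congrArg (fun g : Perm Q => g e) (h1 a)
    simp only [Perm.mul_apply] at this
    rw [h.Rt_e, h.Le] at this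
    have h3 : Rt L J b (J b) = e := by rw [h.Rt_app, h.JL]
    rw [h3, h.Le] at this
    rw [Perm.mul_apply, ← this, Perm.one_apply]
  exact eq_inv_of_mul_eq_one_right h2

theorem lip (h : AL0 G L J e) (k7 : ∀ a b, Th L J a b b = b) (b : Q) :
    L (J b) = (L b)⁻¹ := by
  have h1 := h.rip k7 b
  have h2 : L b = J * Rt L J (J b) * J := by
    have := h.JRJ (J b)
    rw [h.JJ] at this
    exact this.symm
  rw [← h.JRJ b, h2, h1, mul_inv_rev, mul_inv_rev, h.Jinv, inv_inv]
  group

/-- `al(x, y) = L_{xy}⁻¹ L_x L_y` -/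
def al (L : Q → Perm Q) (x y : Q) : Perm Q := (L (L x y))⁻¹ * L x * L y

theorem al_mem (h : AL0 G L J e) (x y : Q) : al L x y ∈ G :=
  G.mul_mem (G.mul_mem (G.inv_mem (h.memL _)) (h.memL _)) (h.memL _)

theorem al_e (h : AL0 G L J e) (x y : Q) : al L x y e = e := by
  unfold al
  rw [Perm.mul_apply, Perm.mul_apply, h.Le, Perm.inv_eq_iff_eq, h.Le]

theorem al_x (h : AL0 G L J e) (x y : Q) : al L x y x = x := by
  unfold al
  rw [Perm.mul_apply, Perm.mul_apply, Perm.inv_eq_iff_eq]
  have := congrArg (fun g : Perm Q => g y) (h.flex x)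
  simp only [Perm.mul_apply] at this
  rw [h.Rt_app, h.Rt_app] at this
  exact this

theorem al_JJ0 (h : AL0 G L J e) (k7 : ∀ a b, Th L J a b b = b) (x y : Q) :
    al L (J y) (J x) = L (L x y) * (al L x y)⁻¹ * (L (L x y))⁻¹ := by
  unfold al
  rw [← h.aaip, h.lip k7, h.lip k7, h.lip k7]
  group

theorem al_w (h : AL0 G L J e) (k7 : ∀ a b, Th L J a b b = b) (x y : Q) :
    al L x y (L x y) = L x y := by
  have h1 := h.al_e (J y) (J x)
  rw [h.al_JJ0 k7, Perm.mul_apply, Perm.mul_apply, h.L_inv_e] at h1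
  have h2 : (al L x y)⁻¹ (J (L x y)) = J (L x y) := by
    apply (L (L x y)).injective
    rw [h1, h.LJ]
  rw [Perm.inv_eq_iff_eq] at h2
  have h3 := h.fixJ (h.al_mem x y) (h.al_e x y) h2.symm
  rwa [h.JJ] at h3

theorem aut0 (h : AL0 G L J e) {g : Perm Q} (hg : g ∈ G) (he : g e = e) (p q : Q) :
    g (L p q) = L (g p) (g q) := by
  have := h.equi g hg he p
  rw [mul_inv_eq_iff_eq_mul] at this
  have := congrArg (fun g : Perm Q => g q) this
  simpa only [Perm.mul_apply] using this

theorem al_y (h : AL0 G L J e) (k7 : ∀ a b, Th L J a b b = b) (x y : Q) :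
    al L x y y = y := by
  have h1 := h.al_w k7 x y
  rw [h.aut0 (h.al_mem x y) (h.al_e x y), h.al_x] at h1
  exact (L x).injective h1

theorem al_JJ (h : AL0 G L J e) (k7 : ∀ a b, Th L J a b b = b) (x y : Q) :
    al L (J y) (J x) = (al L x y)⁻¹ := by
  rw [h.al_JJ0 k7]
  have h1 := h.comL (h.al_mem x y) (h.al_e x y) (h.al_w k7 x y)
  have h2 : L (L x y) * (al L x y)⁻¹ = (al L x y)⁻¹ * L (L x y) := by
    rw [mul_inv_eq_iff_eq_mul, mul_assoc, ← h1]; group
  rw [h2]; group

theorem al_R (h : AL0 G L J e) (k7 : ∀ a b, Th L J a b b = b) (x y : Q) :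
    Rt L J (L x y) = al L x y * Rt L J y * Rt L J x := by
  have h1 : al L x y = J * al L x y * J := by
    rw [← h.comJ _ (h.al_mem x y) (h.al_e x y), mul_assoc, h.JJ1, mul_one]
  have h2 : J * al L x y * J = Rt L J (L x y) * (Rt L J x)⁻¹ * (Rt L J y)⁻¹ := by
    have e1 : J * (L (L x y))⁻¹ * J = Rt L J (L x y) := by
      have := h.JLJ (L x y)
      rw [h.rip k7] at this
      have := congrArg (fun g => g⁻¹) this
      simp only [mul_inv_rev, inv_inv, h.Jinv] at this
      rw [← this]; group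
    have e2 : J * L x * J = (Rt L J x)⁻¹ := by rw [h.JLJ, h.rip k7]
    have e3 : J * L y * J = (Rt L J y)⁻¹ := by rw [h.JLJ, h.rip k7]
    rw [← e1, ← e2, ← e3]
    unfold al
    calc J * ((L (L x y))⁻¹ * L x * L y) * J =
          J * (L (L x y))⁻¹ * 1 * L x * 1 * L y * J := by group
      _ = J * (L (L x y))⁻¹ * (J * J) * L x * (J * J) * L y * J := by rw [h.JJ1]
      _ = _ := by group
  rw [h1, h2]; group

theorem al_LL (_h : AL0 G L J e) (x y : Q) : L x * L y = L (L x y) * al L x y := by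
  unfold al; group

/-- (2) `th(x, z)(x y) = al(y, z)(x y)` -/
theorem two (h : AL0 G L J e) (k7 : ∀ a b, Th L J a b b = b) (x y z : Q) :
    Th L J x z (L x y) = al L y z (L x y) := by
  apply (Rt L J z).injective
  have e1 : L x (L y z) = Rt L J z (Th L J x z (L x y)) := by
    have := congrArg (fun g : Perm Q => g y) (h.LR x z)
    simp only [Perm.mul_apply] at this
    rw [h.Rt_app z y] at this
    rw [this]
    have := congrArg (fun g : Perm Q => g y) (h.th_L (h.k7a' k7 x z))
    simp only [Perm.mul_apply] at this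
    rw [this]
  have e2 : L x (L y z) = Rt L J z (al L y z (L x y)) := by
    rw [← h.Rt_app (L y z) x, h.al_R k7, Perm.mul_apply, Perm.mul_apply, h.Rt_app y x]
    have := congrArg (fun g : Perm Q => g (L x y))
      (h.comR (h.al_mem y z) (h.al_e y z) (h.al_y k7 y z))
    simpa only [Perm.mul_apply] using this
  rw [← e1, ← e2]

theorem RJR (h : AL0 G L J e) (k7 : ∀ a b, Th L J a b b = b) (w y : Q) :
    L (L w (J y)) y = w := by
  rw [← h.Rt_app y, ← h.Rt_app (J y), h.rip k7, apply_inv']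

/-- (2) `al(y, z) w = th(w y', z) w` -/
theorem two' (h : AL0 G L J e) (k7 : ∀ a b, Th L J a b b = b) (w y z : Q) :
    al L y z w = Th L J (L w (J y)) z w := by
  have := h.two k7 (L w (J y)) y z
  rw [h.RJR k7] at this
  exact this.symm

/-- (3a) `al(y, z)⁻¹ w = th(y, w z) w` -/
theorem three_a (h : AL0 G L J e) (k7 : ∀ a b, Th L J a b b = b) (w y z : Q) :
    (al L y z)⁻¹ w = Th L J y (L w z) w := by
  rw [← h.al_JJ k7, h.two' k7, h.JJ, h.th_Jb k7, ← h.th_swap k7]

/-- (3b) `al(y, z)⁻¹ w = th(y, w' z) w` -/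
theorem three_b (h : AL0 G L J e) (k7 : ∀ a b, Th L J a b b = b) (w y z : Q) :
    (al L y z)⁻¹ w = Th L J y (L (J w) z) w := by
  -- `x = z' w`, `w = z x`
  set x := L (J z) w with hx
  have hw : L z x = w := by rw [hx, h.lip k7, apply_inv']
  have hJ : L (J w) z = J x := by
    rw [hx, h.aaip, h.JJ]
  rw [hJ, h.th_Jb k7, ← hw]
  -- `(y z) x`
  apply (L y).injective
  have e1 : Rt L J x (L y z) = L y ((Th L J y x)⁻¹ (L z x)) := by
    have h1 : Rt L J x * L y = L y * Rt L J x * (Th L J y x)⁻¹ := by rw [h.LR y x]; group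
    have h2 : Rt L J x * (Th L J y x)⁻¹ = (Th L J y x)⁻¹ * Rt L J x := by
      rw [mul_inv_eq_iff_eq_mul, mul_assoc, ← h.th_R (k7 y x)]; group
    rw [mul_assoc, h2] at h1
    have := congrArg (fun g : Perm Q => g z) h1
    simp only [Perm.mul_apply] at this
    rw [this, h.Rt_app x z]
  have e2 : L (L y z) x = L y ((al L y z)⁻¹ (L z x)) := by
    have h1 : L (L y z) = L y * L z * (al L y z)⁻¹ := by rw [h.al_LL]; group
    have h2 : L z * (al L y z)⁻¹ = (al L y z)⁻¹ * L z := by
      rw [mul_inv_eq_iff_eq_mul, mul_assoc,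
        ← h.comL (h.al_mem y z) (h.al_e y z) (h.al_y k7 y z)]; group
    rw [mul_assoc, h2] at h1
    have := congrArg (fun g : Perm Q => g x) h1
    simpa only [Perm.mul_apply] using this
  rw [← e1, ← e2, h.Rt_app]

theorem three_c (h : AL0 G L J e) (k7 : ∀ a b, Th L J a b b = b) (w y z : Q) :
    Th L J y (L w (L w z)) w = Th L J y z w := by
  have h1 := h.three_a k7 w y (L w z)
  have h2 := h.three_b k7 w y (L w z)
  rw [h.lip k7, inv_apply'] at h2
  rw [← h1, ← h2]

/-- powers -/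
theorem L_pow (h : AL0 G L J e) (k7 : ∀ a b, Th L J a b b = b) (w : Q) (k : ℕ) :
    L (((L w) ^ k) e) = (L w) ^ k := by
  induction k with
  | zero => rw [pow_zero, Perm.one_apply]; exact h.L_e_one
  | succ k ih =>
    set u := ((L w) ^ k) e with hu
    have h1 : L u w = ((L w) ^ (k + 1)) e := by
      rw [ih, pow_succ, Perm.mul_apply, h.Le]
    have h2 : al L u w = 1 := by
      ext v
      rw [h.two' k7, Perm.one_apply]
      set a := L v (J u) with ha
      have e1 := h.th_L (k7 a w)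
      have e2 : Th L J a w * (L w) ^ k = (L w) ^ k * Th L J a w := by
        have : Commute (Th L J a w) (L w) := e1
        exact (this.pow_right k).eq
      have e3 : Th L J a w u = u := by
        have := congrArg (fun g : Perm Q => g e) e2
        simp only [Perm.mul_apply] at this
        rw [h.Th_e] at this
        exact this
      have e4 : v = L a u := by rw [ha, h.RJR k7]
      have e5 := h.aut0 (h.Th_mem a w) (h.Th_e a w) a u
      rw [e3, h.k7a' k7, ← e4] at e5
      exact e5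
    have h3 := h.al_LL u w
    rw [h2, mul_one] at h3
    rw [← h1, ← h3, ih, pow_succ]

theorem odd_L [Finite Q] (h : AL0 G L J e) (k7 : ∀ a b, Th L J a b b = b)
    (hfix : ∀ x, J x = x → x = e) (w : Q) : Odd (orderOf (L w)) := by
  rw [← Nat.not_even_iff_odd]
  rintro ⟨m, hm⟩
  have h0 : 0 < orderOf (L w) := orderOf_pos _
  have h1 : (L w) ^ m * (L w) ^ m = 1 := by
    rw [← pow_add, ← hm, pow_orderOf_eq_one]
  set g := (L w) ^ m with hg
  have h2 : L (g e) = g := h.L_pow k7 w m
  have h3 : J (g e) = g e := by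
    rw [← h.L_inv_e (g e), h2]
    rw [Perm.inv_eq_iff_eq, ← Perm.mul_apply, h1, Perm.one_apply]
  have h4 := hfix _ h3
  rw [h4, h.L_e_one] at h2
  have h5 := orderOf_dvd_of_pow_eq_one (x := L w) (n := m) (by rw [← hg, ← h2])
  have h6 : m ≠ 0 := by omega
  have h7 := Nat.le_of_dvd (by omega) h5
  omega

/-- (3) `th(y, w z) w = th(y, z) w` -/
theorem three [Finite Q] (h : AL0 G L J e) (k7 : ∀ a b, Th L J a b b = b)
    (hfix : ∀ x, J x = x → x = e) (w y z : Q) :
    Th L J y (L w z) w = Th L J y z w := by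
  have h1 : ∀ k : ℕ, Th L J y (((L w) ^ (2 * k)) z) w = Th L J y z w := by
    intro k
    induction k with
    | zero => simp
    | succ k ih =>
      have : (L w) ^ (2 * (k + 1)) = L w * (L w * (L w) ^ (2 * k)) := by
        rw [← pow_succ', ← pow_succ']; congr 1
      rw [this, Perm.mul_apply, Perm.mul_apply, h.three_c k7, ih]
  obtain ⟨m, hm⟩ := h.odd_L k7 hfix w
  have h2 := h1 (m + 1)
  have h3 : (L w) ^ (2 * (m + 1)) = L w := by
    have : 2 * (m + 1) = (2 * m + 1) + 1 := by ring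
    rw [this, pow_succ, ← hm, pow_orderOf_eq_one, one_mul]
  rwa [h3] at h2

/-- (4) -/
theorem four [Finite Q] (h : AL0 G L J e) (k7 : ∀ a b, Th L J a b b = b)
    (hfix : ∀ x, J x = x → x = e) (y z : Q) :
    L (L y z) = L y * L z * Th L J y z := by
  have h1 : al L y z = Th L J z y := by
    ext w
    rw [h.two' k7, h.th_swap k7 z, ← h.th_Ja k7, h.three k7 hfix, h.th_Ja k7, h.th_Jb k7, inv_inv]
  have h2 := h.al_LL y z
  rw [h1, h.th_swap k7 y z] at h2
  rw [h2]; group

end AL0

/-- K7 (th(a, b) fixes b) implies the theorem for loops without elements of order two -/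
theorem AL.end7 [Finite Q] (h : AL G L J e) (hfix : ∀ x, J x = x → x = e)
    (k7 : ∀ a b, Th L J a b b = b) : Assoc L ∨ ∀ x y, L x y = L y x :=
  h.mouf_end (fun a b => h.al0.k7a' k7 a b) (fun a b => h.al0.th_swap k7 a b)
    (fun x y => h.al0.four k7 hfix x y)

end ALoop
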