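import Pool.Agent.H71.O2.K1
import Pool.Agent.H28.NM

/-!
End game of case O1 (after helper32): if `th(a,b)` fixes `a` and `b` and
`L_{xy} = L_x L_y th(x,y)`, then `x (p q) x = (x p)(q x)` and the elements
`(y x) / (x y)` are in the nucleus.
-/

set_option autoImplicit false

namespace ALoop

open Equiv

variable {Q : Type*} {G : Subgroup (Perm Q)} {L : Q → Perm Q} {J : Perm Q} {e : Q}

namespace AL0

/-- `L_{xp} R_x = L_x R_x L_p` -/
theorem mouf_op (h : AL0 G L J e) (k7a : ∀ a b, Th L J a b a = a)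
    (hsg : ∀ a b, Th L J b a = (Th L J a b)⁻¹)
    (h4 : ∀ x y, L (L x y) = L x * L y * Th L J x y) (x p : Q) :
    L (L x p) * Rt L J x = L x * Rt L J x * L p := by
  have h1 : Th L J x p * Rt L J x = Rt L J x * Th L J x p :=
    h.comR (h.Th_mem x p) (h.Th_e x p) (k7a x p)
  have h2 : L p * Rt L J x = Rt L J x * L p * Th L J p x := by
    unfold Th; group
  rw [hsg x p] at h2
  calc L (L x p) * Rt L J x = L x * L p * (Th L J x p * Rt L J x) := by rw [h4]; group
    _ = L x * (L p * Rt L J x) * Th L J x p := by rw [h1]; group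
    _ = L x * (Rt L J x * L p * (Th L J x p)⁻¹) * Th L J x p := by rw [h2]
    _ = _ := by group

theorem mouf_app (h : AL0 G L J e) (k7a : ∀ a b, Th L J a b a = a)
    (hsg : ∀ a b, Th L J b a = (Th L J a b)⁻¹)
    (h4 : ∀ x y, L (L x y) = L x * L y * Th L J x y) (x p q : Q) :
    L (L x p) (Rt L J x q) = L x (Rt L J x (L p q)) := by
  have := congrArg (fun g : Perm Q => g q) (h.mouf_op k7a hsg h4 x p)
  simpa only [Perm.mul_apply] using this

theorem L_e_one (h : AL0 G L J e) : L e = 1 := by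
  ext x
  have := h.aaip (J x) e
  rw [h.Le, h.JJ, h.Je] at this
  simpa using this.symm

/-- the elements `c = (y x) / (x y)` are in the right nucleus -/
theorem mouf_nuc (h : AL0 G L J e) (k7a : ∀ a b, Th L J a b a = a)
    (hsg : ∀ a b, Th L J b a = (Th L J a b)⁻¹)
    (h4 : ∀ x y, L (L x y) = L x * L y * Th L J x y) (x y p q : Q) :
    L (L p q) ((Rt L J (L x y))⁻¹ (L y x)) = L p (L q ((Rt L J (L x y))⁻¹ (L y x))) := by
  set w := L x y with hw
  set A : Perm Q := (L w)⁻¹ * L x * L y with hA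
  set V : Perm Q := (Rt L J w)⁻¹ * Rt L J x * Rt L J y with hV
  have hL1 := h.L_e_one
  have hAG : A ∈ G := G.mul_mem (G.mul_mem (G.inv_mem (h.memL _)) (h.memL _)) (h.memL _)
  have hAe : A e = e := by
    rw [hA, Perm.mul_apply, Perm.mul_apply, h.Le, Perm.inv_eq_iff_eq, h.Le]
  have hVe : V e = (Rt L J w)⁻¹ (L y x) := by
    rw [hV, Perm.mul_apply, Perm.mul_apply, h.Rt_e, h.Rt_app]
  have hm := h.mouf_app k7a hsg h4
  -- `W (p q) = (A p) (V q)`
  have key : ∀ p q, L w (Rt L J w (L (A p) (V q))) = L x (Rt L J x (L y (Rt L J y (L p q)))) := by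
    intro p q
    rw [← hm w, ← hm y, ← hm x]
    have e1 : L w (A p) = L x (L y p) := by
      rw [hA, Perm.mul_apply, Perm.mul_apply, ← Perm.mul_apply, mul_inv_cancel, Perm.one_apply]
    have e2 : Rt L J w (V q) = Rt L J x (Rt L J y q) := by
      rw [hV, Perm.mul_apply, Perm.mul_apply, ← Perm.mul_apply, mul_inv_cancel, Perm.one_apply]
    rw [e1, e2]
  have hinj : ∀ u v, L w (Rt L J w u) = L w (Rt L J w v) → u = v := fun u v huv =>
    (Rt L J w).injective ((L w).injective huv)
  set c := (Rt L J w)⁻¹ (L y x) with hc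
  -- `V p = (A p) c`
  have hVA : ∀ p, V p = L (A p) c := by
    intro p
    apply hinj
    rw [← hVe, key p e, h.Le]
    have := key e p
    rw [hAe, hL1, Perm.one_apply, Perm.one_apply] at this
    exact this
  have haut : ∀ p q, A (L p q) = L (A p) (A q) := by
    intro p q
    have := h.equi A hAG hAe p
    rw [mul_inv_eq_iff_eq_mul] at this
    have := congrArg (fun g : Perm Q => g q) this
    simpa only [Perm.mul_apply] using this
  have hA2 : ∀ p q, L (L (A p) (A q)) c = L (A p) (L (A q) c) := by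
    intro p q
    rw [← haut, ← hVA, ← hVA]
    apply hinj
    rw [key p q]
    have := key e (L p q)
    rw [hAe, hL1, Perm.one_apply, Perm.one_apply] at this
    exact this
  obtain ⟨p', rfl⟩ := A.surjective p
  obtain ⟨q', rfl⟩ := A.surjective q
  exact hA2 p' q'

end AL0

theorem AL.mouf_end (h : AL G L J e) (k7a : ∀ a b, Th L J a b a = a)
    (hsg : ∀ a b, Th L J b a = (Th L J a b)⁻¹)
    (h4 : ∀ x y, L (L x y) = L x * L y * Th L J x y) :
    Assoc L ∨ ∀ x y, L x y = L y x := by
  by_cases hc : ∀ x y, L x y = L y x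
  · exact Or.inr hc
  left
  push Not at hc
  obtain ⟨x, y, hxy⟩ := hc
  have h0 := h.al0
  set c := (Rt L J (L x y))⁻¹ (L y x) with hcdef
  have hn : ∀ p q, L (L p q) c = L p (L q c) := fun p q => h0.mouf_nuc k7a hsg h4 x y p q
  have hTh : ∀ v, Th L J v c = 1 := by
    intro v
    ext q
    unfold Th
    simp only [Perm.mul_apply, Perm.one_apply]
    rw [Perm.inv_eq_iff_eq, Perm.inv_eq_iff_eq, h0.Rt_app, h0.Rt_app, hn]
  refine h.assoc_of_mn (s := c) ?_ ?_
  · intro v z
    rw [h4 v c, hTh, mul_one, Perm.mul_apply]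
  · intro hce
    rw [hcdef, Perm.inv_eq_iff_eq, h0.Rt_e] at hce
    exact hxy hce.symm

end ALoop
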